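import Pool.Agent.Helper28.TL.Sq
import Pool.Agent.Helper28.TL.Crude
import Pool.Agent.Helper28.TL.StBdF
import Pool.Agent.Helper28.TL.StepOf

/-!
# OR, block TL: the tails of the smoothing
-/

set_option autoImplicit false
open MeasureTheory Set Filter Topology
open Pool.Agent.Helper93.UG (zc sp)
open Pool.Agent.Helper57.NS (cnt)
open Pool.Agent.Helper62.OP (smooth_step)
open Pool.Agent.Helper28.TL
open Pool.Agent.Helper28.TL.H82 (rho_facts conv_one cnt_meas cnt_nonneg)

namespace Pool.Agent.Helper60.OR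

/-- the count is monotone for sets in `[-L, L]` -/
lemma cnt_mono60 {T t L : ℝ} (hT : 1 < T) {J K : Set ℝ} (h : J ⊆ K) (hK : K ⊆ Icc (-L) L) : cnt T t J ≤ cnt T t K := by
  have hs : 0 < sp T := by
    unfold sp
    have := Real.log_pos hT
    have := Real.pi_pos
    positivity
  have hsub : {u : ℝ | (u - t) / sp T ∈ K} ⊆ Icc (t - L * sp T) (t + L * sp T) := by
    intro u hu
    have h1 := hK hu
    have h2 := h1.1
    have h3 := h1.2
    rw [le_div_iff₀ hs] at h2
    rw [div_le_iff₀ hs] at h3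
    constructor <;> linarith
  unfold cnt
  have h1 : {u : ℝ | (u - t) / sp T ∈ J} ⊆ {u : ℝ | (u - t) / sp T ∈ K} := fun u hu => h hu
  exact_mod_cast Pool.Agent.Helper56.UG.zc_mono h1 hsub

/-- the mass of the tails -/
lemma tail2 {w : ℝ} (hw : 0 < w) : IntegrableOn (fun v : ℝ => |v| ^ (-2 : ℝ)) {v : ℝ | w < |v|} ∧
    ∫ v in {v : ℝ | w < |v|}, |v| ^ (-2 : ℝ) = 2 / w := by
  have hm : MeasurableSet {v : ℝ | w < |v|} := measurableSet_lt measurable_const measurable_norm
  have h0 : IntegrableOn (fun v : ℝ => v ^ (-2 : ℝ)) (Ioi w) := integrableOn_Ioi_rpow_of_lt (by norm_num) hw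
  have h1 : ∀ v : ℝ, ({v : ℝ | w < |v|}).indicator (fun v : ℝ => |v| ^ (-2 : ℝ)) v =
      (Ioi w).indicator (fun v : ℝ => v ^ (-2 : ℝ)) |v| := by
    intro v
    by_cases hv : w < |v|
    · rw [indicator_of_mem (show v ∈ {v : ℝ | w < |v|} from hv), indicator_of_mem (show |v| ∈ Ioi w from hv)]
    · rw [indicator_of_notMem (show v ∉ {v : ℝ | w < |v|} from hv), indicator_of_notMem (show |v| ∉ Ioi w from hv)]
  have h2 : ∫ v in {v : ℝ | w < |v|}, |v| ^ (-2 : ℝ) = 2 * ∫ v in Ioi (0:ℝ), (Ioi w).indicator (fun v : ℝ => v ^ (-2 : ℝ)) v := by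
    rw [← integral_indicator hm, ← integral_comp_abs (f := (Ioi w).indicator (fun v : ℝ => v ^ (-2 : ℝ)))]
    exact integral_congr_ae (ae_of_all _ h1)
  have h3 : ∫ v in Ioi (0:ℝ), (Ioi w).indicator (fun v : ℝ => v ^ (-2 : ℝ)) v = ∫ v in Ioi w, v ^ (-2 : ℝ) := by
    rw [setIntegral_indicator measurableSet_Ioi, Ioi_inter_Ioi, max_eq_right hw.le]
  have h4 : ∫ v in Ioi w, v ^ (-2 : ℝ) = 1 / w := by
    rw [integral_Ioi_rpow_of_lt (by norm_num) hw]
    norm_num
    rw [Real.rpow_neg_one]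
  constructor
  · have h6 : IntegrableOn (fun v : ℝ => |v| ^ (-2 : ℝ)) (Ioi w) := by
      refine h0.congr_fun (fun v hv => ?_) measurableSet_Ioi
      simp only
      rw [abs_of_pos (lt_trans hw hv)]
    have h7 : IntegrableOn (fun v : ℝ => |v| ^ (-2 : ℝ)) (Iio (-w)) := by
      have h8 := h6.comp_neg
      rw [show -Ioi w = Iio (-w) by simp] at h8
      refine h8.congr_fun (fun v hv => ?_) measurableSet_Iio
      simp only
      rw [abs_neg]
    have h8 := h7.union h6
    refine h8.mono_set fun v hv => ?_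
    rw [mem_ofPred_eq, lt_abs] at hv
    rcases hv with h | h
    · exact Or.inr h
    · exact Or.inl (by rw [mem_Iio]; linarith)
  · rw [h2, h3, h4]
    ring

/-- the mass of a density with `ρ v ≤ D / v ^ 2` outside of `[-w, w]` -/
lemma mass_tail {ρ : ℝ → ℝ} {D w : ℝ} (hw : 0 < w) (hρ : ∀ v, 0 ≤ ρ v) (hρ2 : ∀ v, v ≠ 0 → ρ v ≤ D / v ^ 2) :
    ∫ v in {v : ℝ | w < |v|}, ρ v ≤ 2 * D / w := by
  obtain ⟨hi, h1⟩ := tail2 hw
  have hm : MeasurableSet {v : ℝ | w < |v|} := measurableSet_lt measurable_const measurable_norm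
  have h2 : ∫ v in {v : ℝ | w < |v|}, ρ v ≤ ∫ v in {v : ℝ | w < |v|}, D * |v| ^ (-2 : ℝ) := by
    refine integral_mono_of_nonneg (ae_of_all _ hρ) (hi.const_mul _) ?_
    filter_upwards [ae_restrict_mem hm] with v hv
    have hv0 : 0 < |v| := hw.trans hv
    refine (hρ2 v (abs_pos.1 hv0)).trans (le_of_eq ?_)
    rw [Real.rpow_neg hv0.le, Real.rpow_two, sq_abs]
    rfl
  refine h2.trans (le_of_eq ?_)
  rw [integral_const_mul, h1]
  ring

/-- the good points: the count of an interval with or without its end points -/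
lemma good60 {R L T u P : ℝ} (hR : 0 < R) (hRL : R ≤ L) (hT : 1 < T)
    (h : ∀ F : Fam R L, |St F T u - Ev F id| ≤ F.B * P) {a b : ℝ} {J : Set ℝ} (ha : -L ≤ a) (hab : a ≤ b) (hb : b ≤ L)
    (hJ1 : Ioo a b ⊆ J) (hJ2 : J ⊆ Icc a b) : |cnt T u J - (b - a)| ≤ 3 * P := by
  have key : ∀ x y : ℝ, -L ≤ x → x ≤ y → y ≤ L → |cnt T u (Icc x y) - (y - x)| ≤ 3 * P := by
    intro x y hx hxy hy
    let F : Fam R L :=
      { n := 2
        a := ![-R, x]
        b := ![R, y]
        c := ![-1, 1]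
        le := by
          intro i
          fin_cases i
          · show -R ≤ R
            linarith
          · exact hxy
        inn := by
          intro i
          fin_cases i
          · exact ⟨by show -L ≤ -R; linarith, hRL⟩
          · exact ⟨hx, hy⟩ }
    have h1 := h F
    have h2 : St F T u = cnt T u (Icc x y) := by
      have h3 : St F T u = cnt T u (Icc (-R) R) + ∑ i : Fin 2, (![-1, 1] : Fin 2 → ℝ) i *
        cnt T u (Icc ((![-R, x] : Fin 2 → ℝ) i) ((![R, y] : Fin 2 → ℝ) i)) := rfl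
      rw [h3, Fin.sum_univ_two]
      simp only [Matrix.cons_val_zero, Matrix.cons_val_one]
      ring
    have h3 : Ev F id = y - x := by
      have h4 : Ev F id = (id R - id (-R)) + ∑ i : Fin 2, (![-1, 1] : Fin 2 → ℝ) i *
        (id ((![R, y] : Fin 2 → ℝ) i) - id ((![-R, x] : Fin 2 → ℝ) i)) := rfl
      rw [h4, Fin.sum_univ_two]
      simp only [Matrix.cons_val_zero, Matrix.cons_val_one, id]
      ring
    have h4 : F.B = 3 := by
      have h5 : F.B = 1 + ∑ i : Fin 2, |(![-1, 1] : Fin 2 → ℝ) i| := rfl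
      rw [h5, Fin.sum_univ_two]
      simp only [Matrix.cons_val_zero, Matrix.cons_val_one]
      norm_num
    rwa [h2, h3, h4] at h1
  have h1 := key a b ha hab hb
  have hc1 : cnt T u J ≤ cnt T u (Icc a b) := cnt_mono60 hT hJ2 (Icc_subset_Icc ha hb)
  have hc0 : 0 ≤ cnt T u J := cnt_nonneg _ _ _
  rw [abs_le] at h1 ⊢
  refine ⟨?_, by linarith⟩
  rcases hab.eq_or_lt with h2 | h2
  · have h3 : 0 ≤ 3 * P := by linarith
    linarith
  · refine le_of_forall_pos_le_add fun ε hε => ?_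
    obtain ⟨q, hq⟩ : ∃ q : ℝ, q = min (ε / 2) ((b - a) / 3) := ⟨_, rfl⟩
    have hq0 : 0 < q := by rw [hq]; exact lt_min (by linarith) (by linarith)
    have hq1 : q ≤ ε / 2 := by rw [hq]; exact min_le_left _ _
    have hq2 : q ≤ (b - a) / 3 := by rw [hq]; exact min_le_right _ _
    have h3 := key (a + q) (b - q) (by linarith) (by linarith) (by linarith)
    have h4 : cnt T u (Icc (a + q) (b - q)) ≤ cnt T u J :=
      cnt_mono60 hT ((Icc_subset_Ioo (by linarith) (by linarith)).trans hJ1) (hJ2.trans (Icc_subset_Icc ha hb))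
    have h5 := (abs_le.1 h3).1
    linarith

/-- **TL**: the tails of the smoothing, for all intervals at once -/
theorem tl_core {k d e1 η : ℝ} (hk : 0 < k) (hd : 0 < d) (hd1 : d ≤ 1) (he1 : 0 < e1) (hη : 0 < η) : ∃ C T₀ : ℝ, 1 ≤ C ∧
    ∀ T R L : ℝ, T₀ ≤ T → C ≤ L → Rng d T R L → Ms k R L ≤ L ^ (e1 / 2) →
    ∃ E : Set ℝ, volume E ≤ ENNReal.ofReal (C * L ^ (-10 : ℝ) * T) ∧ ∀ t ∈ Icc T (2 * T), t ∉ E →
      ∀ (a b : ℝ) (J : Set ℝ), -L ≤ a → a ≤ b → b ≤ L → Ioo a b ⊆ J → J ⊆ Icc a b →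
        ∫ v in {v : ℝ | L ^ e1 * sp T < |v|}, rho k T R L v * |cnt T (t + v) J - (b - a)| ≤ η := by
  obtain ⟨C1, T1, hC1, H1⟩ := Pool.Agent.Helper28.TL.H8.st_bd hd hd1 (e1 / 4) 30 (by positivity) (by norm_num)
  obtain ⟨C2, T2, hC2, H2⟩ := Pool.Agent.Helper28.TL.H69.st_sq hd hd1
  obtain ⟨C3, hC3, H3⟩ := Pool.Agent.Helper28.TL.H28.cnt_crude
  obtain ⟨L0, hL0⟩ := eventually_atTop.mp (((tendsto_rpow_atTop (show (0:ℝ) < e1 / 4 by positivity)).eventually_ge_atTop (18 / η)).and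
    (eventually_ge_atTop 1))
  have hlim : ∀ᶠ T : ℝ in atTop, 240 * (C3 + 2) * (Real.log T * T ^ (-(3 / 8) : ℝ)) ≤ η / 12 := by
    have h1 : Tendsto (fun T : ℝ => 240 * (C3 + 2) * (Real.log T * T ^ (-(3 / 8) : ℝ))) atTop (𝓝 (240 * (C3 + 2) * 0)) := by
      refine Tendsto.const_mul _ ?_
      have h2 := isLittleO_log_rpow_atTop (show (0:ℝ) < 3 / 8 by norm_num)
      have h3 := h2.tendsto_div_nhds_zero
      refine h3.congr' ?_
      filter_upwards [eventually_gt_atTop (0:ℝ)] with T hT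
      rw [Real.rpow_neg hT.le, div_eq_mul_inv]
    exact (h1.eventually_lt_const (by rw [mul_zero]; positivity)).mono fun T h => h.le
  have evT : ∀ᶠ T : ℝ in atTop, Real.log T ^ (10:ℝ) ≤ √T := by
    have h1 := (isLittleO_log_rpow_rpow_atTop (r := 10) (s := 1 / 2) (by norm_num)).bound (c := 1) one_pos
    filter_upwards [h1, eventually_ge_atTop 3] with T h2 h3
    rw [Real.norm_eq_abs, Real.norm_eq_abs, one_mul, abs_of_nonneg (Real.rpow_nonneg (Real.log_nonneg (by linarith)) _),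
      abs_of_nonneg (by positivity), ← Real.sqrt_eq_rpow] at h2
    exact h2
  obtain ⟨T3, hT3⟩ := eventually_atTop.mp (hlim.and (evT.and (eventually_ge_atTop 100)))
  obtain ⟨CC, hCC⟩ : ∃ CC : ℝ, CC = 12 / η * (C1 + 12 * C2 + 8) + 2 := ⟨_, rfl⟩
  have hCC0 : 0 ≤ CC := by rw [hCC]; positivity
  refine ⟨max (max C1 C2) (max L0 CC), max (max T1 T2) T3, (hC1.trans (le_max_left _ _)).trans (le_max_left _ _), ?_⟩
  intro T R L hT hL hRng hMs
  obtain ⟨C, hC⟩ : ∃ C : ℝ, C = max (max C1 C2) (max L0 CC) := ⟨_, rfl⟩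
  rw [← hC] at hL ⊢
  have hLC1 : C1 ≤ L := le_trans (by rw [hC]; exact (le_max_left _ _).trans (le_max_left _ _)) hL
  have hLC2 : C2 ≤ L := le_trans (by rw [hC]; exact (le_max_right _ _).trans (le_max_left _ _)) hL
  have hLL0 : L0 ≤ L := le_trans (by rw [hC]; exact (le_max_left _ _).trans (le_max_right _ _)) hL
  have hCCC : CC ≤ C := by rw [hC]; exact (le_max_right _ _).trans (le_max_right _ _)
  simp only [max_le_iff] at hT
  obtain ⟨⟨hTT1, hTT2⟩, hTT3⟩ := hT
  obtain ⟨g1, g2, g3⟩ := hT3 T hTT3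
  obtain ⟨f1, hL1⟩ := hL0 L hLL0
  obtain ⟨hR1, hR2, hR3⟩ := hRng
  have hT0 : 0 < T := by linarith
  have hLp : 0 < L := by linarith
  have hlog4 : 4 ≤ Real.log T := by
    rw [Real.le_log_iff_exp_le hT0]
    have h1 : Real.exp 4 = Real.exp 1 ^ 4 := by
      rw [← Real.exp_nat_mul]
      norm_num
    have h2 : Real.exp 1 ^ 4 ≤ (2.7182818286:ℝ) ^ 4 := pow_le_pow_left₀ (Real.exp_pos 1).le Real.exp_one_lt_d9.le 4
    rw [h1]
    refine h2.trans ?_
    norm_num
    linarith
  have hlog0 : 0 < Real.log T := by linarith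
  have hLlog : L ≤ Real.log T := hR1.trans (by
    calc Real.log T ^ (1 - d) ≤ Real.log T ^ (1 : ℝ) := Real.rpow_le_rpow_of_exponent_le (by linarith) (by linarith)
      _ = Real.log T := Real.rpow_one _)
  have hR : 0 < R := lt_of_lt_of_le (Real.rpow_pos_of_pos hLp _) hR2
  have hRL : R ≤ L := hR3.trans (by
    calc L ^ (1 - d) ≤ L ^ (1 : ℝ) := Real.rpow_le_rpow_of_exponent_le hL1 (by linarith)
      _ = L := Real.rpow_one _)
  have hs : 0 < sp T := by unfold sp; positivity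
  have hsl : sp T * Real.log T = 2 * Real.pi := by
    unfold sp
    field_simp
  obtain ⟨q1, q2, q3, q4, q5⟩ := rho_facts (k := k) hR hRL (by linarith : 3 ≤ T)
  obtain ⟨D, hD⟩ : ∃ D : ℝ, D = 4 * Ms k R L / Real.log T := ⟨_, rfl⟩
  have hMs0 : 0 ≤ Ms k R L := by
    unfold Pool.Agent.Helper62.OP.Ms
    positivity
  have hMsL : Ms k R L ≤ L := by
    unfold Pool.Agent.Helper62.OP.Ms
    have h1 : (L / R) ^ (-k) ≤ 1 := Real.rpow_le_one_of_one_le_of_nonpos ((one_le_div hR).2 hRL) (by linarith)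
    calc R * (L / R) ^ (-k) ≤ R * 1 := mul_le_mul_of_nonneg_left h1 hR.le
      _ ≤ L := by linarith
  have hD0 : 0 ≤ D := by rw [hD]; positivity
  have hD4 : D ≤ 4 := by
    rw [hD, div_le_iff₀ hlog0]
    linarith
  have q5' : ∀ v, v ≠ 0 → rho k T R L v ≤ D / v ^ 2 := fun v hv => by
    refine (q5 v hv).trans (le_of_eq ?_)
    rw [hD, div_div]
  -- the exceptional set of the pointwise bound
  obtain ⟨E, hE, hE2⟩ := H1 T R L hTT1 hLC1 ⟨hR1, hR2, hR3⟩
  obtain ⟨E', hE'⟩ : ∃ E' : Set ℝ, E' = toMeasurable volume E := ⟨_, rfl⟩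
  have hE'm : MeasurableSet E' := by rw [hE']; exact measurableSet_toMeasurable _ _
  have hE's : E ⊆ E' := by rw [hE']; exact subset_toMeasurable _ _
  have hE'v : volume E' ≤ ENNReal.ofReal (C1 * L ^ (-(30:ℝ)) * T) := by rw [hE', measure_toMeasurable]; exact hE
  -- the crude majorant
  obtain ⟨N, hN⟩ : ∃ N : ℝ → ℝ, N = fun u => cnt T u (Icc (-L) L) + 2 * L := ⟨_, rfl⟩
  have hN0 : ∀ u, 0 ≤ N u := fun u => by
    rw [hN]
    have := cnt_nonneg T u (Icc (-L) L)
    simp only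
    linarith
  have hNm : Measurable N := by
    rw [hN]
    exact (cnt_meas hs _ _).add_const _
  have hNi : ∀ t, Integrable fun v => rho k T R L v * N (t + v) := by
    intro t
    have h1 := (conv_one (k := k) hR hRL (by linarith : 3 ≤ T) t (a := -L) (b := L) (by linarith)).1
    have h2 : (fun v => rho k T R L v * N (t + v)) = fun v => rho k T R L v * cnt T (t + v) (Icc (-L) L) + 2 * L * rho k T R L v := by
      funext v
      rw [hN]
      ring
    rw [h2]
    exact h1.add (q3.const_mul _)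
  obtain ⟨K, hK⟩ : ∃ K : ℝ, K = C3 + 2 * L := ⟨_, rfl⟩
  have hK0 : 0 ≤ K := by rw [hK]; linarith
  have hNc : ∀ u : ℝ, |N u| ≤ K * (1 + Real.log (|u| + T)) := by
    intro u
    have h1 := H3 T L (by linarith) hLp hLlog (Icc (-L) L) u le_rfl
    have h2 : 0 ≤ Real.log (|u| + T) := Real.log_nonneg (by linarith [abs_nonneg u])
    rw [abs_of_nonneg (cnt_nonneg _ _ _)] at h1
    rw [abs_of_nonneg (hN0 u), hN, hK]
    simp only
    nlinarith
  have hfarN : ∀ t ∈ Icc (T + √T) (2 * T - √T), ∀ f : ℝ → ℝ, (∀ u : ℝ, |f u| ≤ K * (1 + Real.log (|u| + T))) →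
      ∫ v in {v : ℝ | √T < |v|}, rho k T R L v * |f (t + v)| ≤ η / 12 := by
    intro t ht f hf
    have h1 := far_le (ρ := rho k T R L) (f := f) (K := K) (D := D) (by linarith : (1:ℝ) ≤ T) hK0 hD0 q1 q5' hf ht
    refine h1.trans (le_trans ?_ g1)
    have h5 : 0 ≤ T ^ (-(3 / 8) : ℝ) := Real.rpow_nonneg (by linarith) _
    have h6 : K ≤ (C3 + 2) * Real.log T := by
      rw [hK]
      nlinarith
    calc 60 * D * K * T ^ (-(3 / 8) : ℝ) ≤ 60 * 4 * ((C3 + 2) * Real.log T) * T ^ (-(3 / 8) : ℝ) := by gcongr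
      _ = 240 * (C3 + 2) * (Real.log T * T ^ (-(3 / 8) : ℝ)) := by ring
  -- the bad part
  obtain ⟨f, hf⟩ : ∃ f : ℝ → ℝ, f = (E' ∩ Icc T (2 * T)).indicator N := ⟨_, rfl⟩
  have hfm : Measurable f := by rw [hf]; exact hNm.indicator (hE'm.inter measurableSet_Icc)
  have hf0 : ∀ u, 0 ≤ f u := fun u => by rw [hf]; exact indicator_nonneg (fun u _ => hN0 u) u
  have hfN : ∀ u, f u ≤ N u := fun u => by rw [hf]; exact indicator_le_self' (fun u _ => hN0 u) u
  have hfc : ∀ u : ℝ, |f u| ≤ K * (1 + Real.log (|u| + T)) := fun u => by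
    refine le_trans ?_ (hNc u)
    rw [abs_of_nonneg (hf0 u), abs_of_nonneg (hN0 u)]
    exact hfN u
  have hfi : ∀ t, Integrable fun v => rho k T R L v * f (t + v) := by
    intro t
    refine (hNi t).mono' ((q2.measurable.mul (hfm.comp (measurable_const_add t))).aestronglyMeasurable) (ae_of_all _ fun v => ?_)
    rw [Real.norm_eq_abs, abs_of_nonneg (mul_nonneg (q1 v) (hf0 _))]
    exact mul_le_mul_of_nonneg_left (hfN _) (q1 v)
  have hstep := smooth_step (ρ := rho k T R L) (f := f) (T := T) (e := η / 6) (η := η / 6) (by linarith) (by positivity)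
    (by positivity) q1 q2.measurable q4 q3 hfm (fun t _ => hfi t) (fun t ht => by
      have := hfarN t ht f hfc
      linarith)
  -- the second moment
  let F : Fam R L :=
    { n := 1
      a := fun _ => -L
      b := fun _ => L
      c := fun _ => 1
      le := fun _ => by linarith
      inn := fun _ => ⟨le_rfl, le_rfl⟩ }
  have hFB : F.B = 2 := by
    have h5 : F.B = 1 + ∑ i : Fin 1, |(1:ℝ)| := rfl
    rw [h5]
    norm_num
  have hFS : ∀ u, cnt T u (Icc (-L) L) ≤ St F T u := by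
    intro u
    have h5 : St F T u = cnt T u (Icc (-R) R) + ∑ i : Fin 1, 1 * cnt T u (Icc (-L) L) := rfl
    rw [h5]
    have := cnt_nonneg T u (Icc (-R) R)
    simp only [Finset.univ_unique, Finset.sum_singleton, one_mul]
    linarith
  obtain ⟨hsq1, hsq2⟩ := H2 T R L hTT2 hLC2 ⟨hR1, hR2, hR3⟩ F
  obtain ⟨S, hS⟩ : ∃ S : Set ℝ, S = {t : ℝ | t ∈ Icc T (2 * T) ∧ η / 6 < |f t|} := ⟨_, rfl⟩
  have hSm : MeasurableSet S := by
    rw [hS]
    exact measurableSet_Icc.inter (measurableSet_lt measurable_const hfm.norm)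
  have hbad := bad_le (f := f) (g := St F T) (T := T) (P := 0) (lam := L ^ (16 : ℝ))
    (m := C1 * L ^ (-(30:ℝ)) * T) (D := 8 * L ^ 2) (E := E') (S := S) hT0.le (by positivity) le_rfl (by positivity)
    hSm (by rw [hS]; exact fun t ht => ht.1) hE'v (by positivity) (fun t _ htE => by
      rw [hf, indicator_of_notMem fun h => htE h.1, abs_zero]) (fun t _ => by
      have h1 : f t ≤ St F T t + 2 * L := by
        refine (hfN t).trans ?_
        rw [hN]
        have := hFS t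
        simp only
        linarith
      have h2 := hf0 t
      have h3 : f t ^ 2 ≤ (St F T t + 2 * L) ^ 2 := pow_le_pow_left₀ h2 h1 2
      nlinarith [sq_nonneg (St F T t - 2 * L), sq_nonneg (St F T t)]) hsq1 hsq2
  rw [← hS] at hstep
  have h1 := hstep.trans hbad
  rw [ENNReal.ofReal_zero, zero_mul, zero_add, hFB] at h1
  obtain ⟨Z, hZ⟩ : ∃ Z : Set ℝ, Z = {t : ℝ | t ∈ Icc (T + √T) (2 * T - √T) ∧ η / 6 + η / 6 < |∫ v, rho k T R L v * f (t + v)|} := ⟨_, rfl⟩
  rw [← hZ] at h1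
  have hsum : L ^ (16 : ℝ) * (C1 * L ^ (-(30:ℝ)) * T) + (3 * (C2 * 2 ^ 2 * L ^ 4 * T) + 8 * L ^ 2 * T) / L ^ (16 : ℝ) ≤
      (C1 + 12 * C2 + 8) * (L ^ (-10 : ℝ) * T) := by
    have p1 : L ^ (16 : ℝ) * L ^ (-(30:ℝ)) ≤ L ^ (-10 : ℝ) := by
      rw [← Real.rpow_add hLp]
      exact Real.rpow_le_rpow_of_exponent_le hL1 (by norm_num)
    have p2 : L ^ 4 / L ^ (16 : ℝ) ≤ L ^ (-10 : ℝ) := by
      rw [← Real.rpow_natCast L 4, ← Real.rpow_sub hLp]
      exact Real.rpow_le_rpow_of_exponent_le hL1 (by norm_num)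
    have p3 : L ^ 2 / L ^ (16 : ℝ) ≤ L ^ (-10 : ℝ) := by
      rw [← Real.rpow_natCast L 2, ← Real.rpow_sub hLp]
      exact Real.rpow_le_rpow_of_exponent_le hL1 (by norm_num)
    calc L ^ (16 : ℝ) * (C1 * L ^ (-(30:ℝ)) * T) + (3 * (C2 * 2 ^ 2 * L ^ 4 * T) + 8 * L ^ 2 * T) / L ^ (16 : ℝ) =
        C1 * (L ^ (16 : ℝ) * L ^ (-(30:ℝ))) * T + 12 * C2 * (L ^ 4 / L ^ (16 : ℝ)) * T + 8 * (L ^ 2 / L ^ (16 : ℝ)) * T := by ring
      _ ≤ C1 * L ^ (-10 : ℝ) * T + 12 * C2 * L ^ (-10 : ℝ) * T + 8 * L ^ (-10 : ℝ) * T := by gcongr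
      _ = _ := by ring
  have hZv : volume Z ≤ ENNReal.ofReal (12 / η * (C1 + 12 * C2 + 8) * (L ^ (-10 : ℝ) * T)) := by
    have h2 := h1.trans (ENNReal.ofReal_le_ofReal hsum)
    have h3 : ENNReal.ofReal (12 / η) * (ENNReal.ofReal (η / 6 / 2) * volume Z) = volume Z := by
      rw [← mul_assoc, ← ENNReal.ofReal_mul (by positivity)]
      have h4 : 12 / η * (η / 6 / 2) = 1 := by
        field_simp
        norm_num
      rw [h4, ENNReal.ofReal_one, one_mul]
    rw [← h3]
    calc ENNReal.ofReal (12 / η) * (ENNReal.ofReal (η / 6 / 2) * volume Z) ≤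
        ENNReal.ofReal (12 / η) * ENNReal.ofReal ((C1 + 12 * C2 + 8) * (L ^ (-10 : ℝ) * T)) := mul_le_mul_right h2 _
      _ = _ := by
        rw [← ENNReal.ofReal_mul (by positivity)]
        congr 1
        ring
  have hsq0 : 0 ≤ √T := Real.sqrt_nonneg T
  have hL10 : 0 < L ^ (-10 : ℝ) := Real.rpow_pos_of_pos hLp _
  have hedge : √T ≤ L ^ (-10 : ℝ) * T := by
    have h1 : L ^ (10:ℝ) ≤ √T := (Real.rpow_le_rpow hLp.le hLlog (by norm_num)).trans g2
    have h2 : L ^ (-10 : ℝ) * L ^ (10:ℝ) = 1 := by rw [← Real.rpow_add hLp]; norm_num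
    have h3 : √T * √T = T := Real.mul_self_sqrt hT0.le
    calc √T = L ^ (-10 : ℝ) * L ^ (10:ℝ) * √T := by rw [h2, one_mul]
      _ ≤ L ^ (-10 : ℝ) * √T * √T := by gcongr
      _ = L ^ (-10 : ℝ) * T := by rw [mul_assoc, h3]
  refine ⟨Z ∪ (Icc T (T + √T) ∪ Icc (2 * T - √T) (2 * T)), ?_, ?_⟩
  · refine (measure_union_le _ _).trans ?_
    have h2 : volume (Icc T (T + √T) ∪ Icc (2 * T - √T) (2 * T)) ≤ ENNReal.ofReal (2 * (L ^ (-10 : ℝ) * T)) := by
      refine (measure_union_le _ _).trans ?_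
      rw [Real.volume_Icc, Real.volume_Icc, ← ENNReal.ofReal_add (by linarith) (by linarith)]
      exact ENNReal.ofReal_le_ofReal (by linarith)
    refine (add_le_add hZv h2).trans ?_
    rw [← ENNReal.ofReal_add (by positivity) (by positivity)]
    refine ENNReal.ofReal_le_ofReal ?_
    calc 12 / η * (C1 + 12 * C2 + 8) * (L ^ (-10 : ℝ) * T) + 2 * (L ^ (-10 : ℝ) * T) = CC * L ^ (-10 : ℝ) * T := by
          rw [hCC]
          ring
      _ ≤ C * L ^ (-10 : ℝ) * T := by gcongr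
  · intro t ht hnt a b J ha hab hb hJ1 hJ2
    have htA : t ∈ Icc (T + √T) (2 * T - √T) := by
      constructor
      · by_contra h
        exact hnt (Or.inr (Or.inl ⟨ht.1, (not_le.1 h).le⟩))
      · by_contra h
        exact hnt (Or.inr (Or.inr ⟨(not_le.1 h).le, ht.2⟩))
    have hB2 : ∫ v, rho k T R L v * f (t + v) ≤ η / 3 := by
      by_contra h
      refine hnt (Or.inl ?_)
      rw [hZ]
      refine ⟨htA, lt_of_lt_of_le ?_ (le_abs_self _)⟩
      linarith [not_le.1 h]
    have hB3 := hfarN t htA N hNc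
    obtain ⟨w, hw⟩ : ∃ w : ℝ, w = L ^ e1 * sp T := ⟨_, rfl⟩
    have hw0 : 0 < w := by rw [hw]; positivity
    obtain ⟨P, hP⟩ : ∃ P : ℝ, P = 3 * L ^ (e1 / 4) := ⟨_, rfl⟩
    have hP0 : 0 ≤ P := by rw [hP]; positivity
    have hmass := mass_tail hw0 q1 q5'
    have hB1 : P * (2 * D / w) ≤ η / 3 := by
      have h2 : 2 * D / w ≤ 2 * L ^ (-(e1 / 2)) := by
        rw [hw, hD, div_le_iff₀ (by positivity)]
        have h3 : 2 * L ^ (-(e1 / 2)) * (L ^ e1 * sp T) = 2 * L ^ (e1 / 2) * sp T := by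
          have h4 : L ^ (-(e1 / 2)) * L ^ e1 = L ^ (e1 / 2) := by
            rw [← Real.rpow_add hLp]
            congr 1
            ring
          calc 2 * L ^ (-(e1 / 2)) * (L ^ e1 * sp T) = 2 * (L ^ (-(e1 / 2)) * L ^ e1) * sp T := by ring
            _ = _ := by rw [h4]
        rw [h3]
        have h5 : 2 * (4 * Ms k R L / Real.log T) = 8 * Ms k R L / Real.log T := by ring
        rw [h5, div_le_iff₀ hlog0]
        have h6 : 2 * L ^ (e1 / 2) * sp T * Real.log T = 4 * Real.pi * L ^ (e1 / 2) := by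
          rw [mul_assoc, hsl]
          ring
        rw [h6]
        have h7 : 0 ≤ L ^ (e1 / 2) := by positivity
        have h8 := Real.pi_gt_three
        nlinarith
      have h3 : P * (2 * D / w) ≤ 6 * L ^ (-(e1 / 4)) := by
        calc P * (2 * D / w) ≤ P * (2 * L ^ (-(e1 / 2))) := mul_le_mul_of_nonneg_left h2 hP0
          _ = 6 * (L ^ (e1 / 4) * L ^ (-(e1 / 2))) := by rw [hP]; ring
          _ = 6 * L ^ (-(e1 / 4)) := by
            rw [← Real.rpow_add hLp]
            congr 2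
            ring
      refine h3.trans ?_
      rw [Real.rpow_neg hLp.le]
      have h4 : 0 < L ^ (e1 / 4) := by positivity
      rw [← div_eq_mul_inv, div_le_iff₀ h4]
      rw [div_le_iff₀ hη] at f1
      linarith
    -- the pointwise bound
    obtain ⟨V, hV⟩ : ∃ V : Set ℝ, V = {v : ℝ | √T < |v|} := ⟨_, rfl⟩
    have hVm : MeasurableSet V := by rw [hV]; exact measurableSet_lt measurable_const measurable_norm
    have hNb : ∀ u, |cnt T u J - (b - a)| ≤ N u := by
      intro u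
      have h2 : cnt T u J ≤ cnt T u (Icc (-L) L) :=
        cnt_mono60 (by linarith) (hJ2.trans (Icc_subset_Icc ha hb)) le_rfl
      have h3 := cnt_nonneg T u J
      rw [hN, abs_le]
      simp only
      constructor <;> linarith
    have hpt : ∀ v, rho k T R L v * |cnt T (t + v) J - (b - a)| ≤
        (P * rho k T R L v + rho k T R L v * f (t + v)) + V.indicator (fun v => rho k T R L v * N (t + v)) v := by
      intro v
      have hr := q1 v
      have z1 : 0 ≤ P * rho k T R L v := mul_nonneg hP0 hr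
      have z2 : 0 ≤ rho k T R L v * f (t + v) := mul_nonneg hr (hf0 _)
      have z3 : 0 ≤ V.indicator (fun v => rho k T R L v * N (t + v)) v :=
        indicator_nonneg (fun v _ => mul_nonneg (q1 v) (hN0 _)) v
      by_cases hvV : v ∈ V
      · rw [indicator_of_mem hvV]
        have := mul_le_mul_of_nonneg_left (hNb (t + v)) hr
        linarith
      · have hv2 : |v| ≤ √T := by
          rw [hV] at hvV
          exact not_lt.1 hvV
        have htv : t + v ∈ Icc T (2 * T) := ⟨by linarith [(abs_le.1 hv2).1, htA.1], by linarith [(abs_le.1 hv2).2, htA.2]⟩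
        by_cases hvE : t + v ∈ E'
        · have h2 : f (t + v) = N (t + v) := by
            rw [hf]
            exact indicator_of_mem (show t + v ∈ E' ∩ Icc T (2 * T) from ⟨hvE, htv⟩) N
          have := mul_le_mul_of_nonneg_left (hNb (t + v)) hr
          rw [h2] at z2 ⊢
          linarith
        · have h2 := good60 hR hRL (by linarith : 1 < T) (hE2 (t + v) htv fun h => hvE (hE's h)) ha hab hb hJ1 hJ2
          have := mul_le_mul_of_nonneg_left h2 hr
          rw [← hP] at this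
          linarith
    have i1 : Integrable fun v => P * rho k T R L v + rho k T R L v * f (t + v) := (q3.const_mul _).add (hfi t)
    have i2 : Integrable (V.indicator fun v => rho k T R L v * N (t + v)) := (hNi t).indicator hVm
    rw [← hw]
    calc ∫ v in {v : ℝ | w < |v|}, rho k T R L v * |cnt T (t + v) J - (b - a)| ≤
        ∫ v in {v : ℝ | w < |v|}, ((P * rho k T R L v + rho k T R L v * f (t + v)) + V.indicator (fun v => rho k T R L v * N (t + v)) v) :=
          integral_mono_of_nonneg (ae_of_all _ fun v => mul_nonneg (q1 v) (abs_nonneg _)) (i1.add i2).integrableOn (ae_of_all _ hpt)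
      _ = (P * ∫ v in {v : ℝ | w < |v|}, rho k T R L v) + (∫ v in {v : ℝ | w < |v|}, rho k T R L v * f (t + v)) +
          ∫ v in {v : ℝ | w < |v|}, V.indicator (fun v => rho k T R L v * N (t + v)) v := by
          rw [integral_add i1.integrableOn i2.integrableOn, integral_add (q3.const_mul _).integrableOn (hfi t).integrableOn,
            integral_const_mul]
      _ ≤ P * (2 * D / w) + (∫ v, rho k T R L v * f (t + v)) + ∫ v, V.indicator (fun v => rho k T R L v * N (t + v)) v := by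
          refine add_le_add (add_le_add (mul_le_mul_of_nonneg_left hmass hP0) ?_) ?_
          · exact setIntegral_le_integral (hfi t) (ae_of_all _ fun v => mul_nonneg (q1 v) (hf0 _))
          · exact setIntegral_le_integral i2 (ae_of_all _ fun v => indicator_nonneg (fun v _ => mul_nonneg (q1 v) (hN0 _)) v)
      _ ≤ η / 3 + η / 3 + η / 12 := by
          refine add_le_add (add_le_add hB1 hB2) ?_
          rw [integral_indicator hVm, hV]
          refine le_trans (le_of_eq ?_) hB3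
          refine setIntegral_congr_fun (hV ▸ hVm) fun v _ => ?_
          rw [abs_of_nonneg (hN0 _)]
      _ ≤ η := by linarith

end Pool.Agent.Helper60.OR
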