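import Pool.Agent.Helper93.OR.Defs
import Pool.Agent.Helper60.OR.Tail

/-!
# OR, block TLC: the tail of the convolution
-/

set_option autoImplicit false
open MeasureTheory Set Filter Topology
open Pool.Agent.Helper93.UG (zc sp)
open Pool.Agent.Helper57.TX (QX DP rs)
open Pool.Agent.Helper57.NS (cnt)
open Pool.Agent.Helper62.OP (DC Xo Pp Nt rho Ms pr Rng)
open Pool.Agent.Helper93.OR

namespace Pool.Agent.Helper60.OR

/-- the range of the parameters of the family -/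
theorem rng_of {n : ℕ} (hn : 4 ≤ n) {δ T L : ℝ} (hT : Real.exp 1 ≤ T) (hL : 1 ≤ L) (hnd : 1 / (n : ℝ) ≤ δ) (hLT : L ≤ Real.log T ^ (1 - δ)) :
    Rng (dd n) T (RR n L) L ∧ Ms (dd n / 100) (RR n L) L ≤ L ^ (1 / (n : ℝ)) := by
  have hn4 : (4 : ℝ) ≤ n := by exact_mod_cast hn
  have hd : dd n = 1 / (n : ℝ) := rfl
  have hd0 : 0 < 1 / (n : ℝ) := by positivity
  have hd1 : 1 / (n : ℝ) ≤ 1 / 4 := one_div_le_one_div_of_le (by norm_num) hn4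
  have hl : 1 ≤ Real.log T := by
    rw [← Real.log_exp 1]
    exact Real.log_le_log (Real.exp_pos 1) hT
  have hLp : 0 < L := by linarith
  have hR0 : 0 < RR n L := Real.rpow_pos_of_pos hLp _
  refine ⟨⟨?_, ?_, ?_⟩, ?_⟩
  · refine hLT.trans (Real.rpow_le_rpow_of_exponent_le hl ?_)
    rw [hd]
    linarith
  · unfold RR
    exact le_rfl
  · unfold RR
    refine Real.rpow_le_rpow_of_exponent_le hL ?_
    rw [hd]
    linarith
  · unfold Pool.Agent.Helper62.OP.Ms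
    have h1 : RR n L ≤ L := by
      unfold RR
      calc L ^ dd n ≤ L ^ (1 : ℝ) := Real.rpow_le_rpow_of_exponent_le hL (by rw [hd]; linarith)
        _ = L := Real.rpow_one L
    have h2 : (L / RR n L) ^ (-(dd n / 100)) ≤ 1 := by
      refine Real.rpow_le_one_of_one_le_of_nonpos ((one_le_div hR0).2 h1) ?_
      rw [hd]
      linarith
    calc RR n L * (L / RR n L) ^ (-(dd n / 100)) ≤ RR n L * 1 := mul_le_mul_of_nonneg_left h2 hR0.le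
      _ = L ^ (1 / (n : ℝ)) := by
        rw [mul_one]
        rfl

/-- TLC, for all intervals, with or without their end points -/
theorem tl_all {n : ℕ} (hn : 4 ≤ n) {δ e₁ η : ℝ} (hδ : 0 < δ) (hδ1 : δ ≤ 1) (hnd : 1 / n ≤ δ) (h1 : 3 / n ≤ e₁) (hη : 0 < η) :
    ∃ C T₀ : ℝ, 1 ≤ C ∧ ∀ T L : ℝ, T₀ ≤ T → C ≤ L → L ≤ Real.log T ^ (1 - δ) →
    ∃ E : Set ℝ, volume E ≤ ENNReal.ofReal (C * L ^ (-10 : ℝ) * T) ∧ ∀ t ∈ Icc T (2 * T), t ∉ E →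
      ∀ (a b : ℝ) (J : Set ℝ), -L ≤ a → a ≤ b → b ≤ L → Ioo a b ⊆ J → J ⊆ Icc a b →
        ∫ v in {v : ℝ | L ^ e₁ * sp T < |v|}, rn n T L v * |cnt T (t + v) J - (b - a)| ≤ η := by
  have hn4 : (4 : ℝ) ≤ n := by exact_mod_cast hn
  have hn0 : 0 < 1 / (n : ℝ) := by positivity
  have h3 : 3 * (1 / (n : ℝ)) ≤ e₁ := by
    rw [mul_one_div]
    exact h1
  have hd : dd n = 1 / (n : ℝ) := rfl
  have hd1 : 1 / (n : ℝ) ≤ 1 / 4 := one_div_le_one_div_of_le (by norm_num) hn4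
  obtain ⟨C, T₀, hC, H⟩ := tl_core (k := dd n / 100) (d := dd n) (e1 := e₁) (η := η) (by rw [hd]; positivity) (by rw [hd]; positivity)
    (by rw [hd]; linarith) (by linarith) hη
  refine ⟨C, max T₀ (Real.exp 1), hC, fun T L hT hL hLT => ?_⟩
  have hL1 : 1 ≤ L := hC.trans hL
  obtain ⟨g1, g2⟩ := rng_of hn ((le_max_right _ _).trans hT) hL1 hnd hLT
  refine H T (RR n L) L ((le_max_left _ _).trans hT) hL g1 (g2.trans ?_)
  exact Real.rpow_le_rpow_of_exponent_le hL1 (by linarith)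

/-- TLC -/
theorem tl_main {n : ℕ} (hn : 4 ≤ n) {δ e₁ : ℝ} (hδ : 0 < δ) (hδ1 : δ ≤ 1) (hnd : 1 / n ≤ δ) (h1 : 3 / n ≤ e₁) (h2 : e₁ ≤ 1 / 2) :
    ∃ C T₀ : ℝ, 1 ≤ C ∧ ∀ T L : ℝ, T₀ ≤ T → C ≤ L → L ≤ Real.log T ^ (1 - δ) →
    ∃ E : Set ℝ, volume E ≤ ENNReal.ofReal (C * L ^ (-2 : ℝ) * T) ∧ ∀ t ∈ Icc T (2 * T), t ∉ E → ∀ x ∈ Icc 0 L,
      ∫ v in {v : ℝ | L ^ e₁ * sp T < |v|}, rn n T L v * |cnt T (t + v) (Icc 0 x) - x| ≤ 1 := by
  obtain ⟨C, T₀, hC, H⟩ := tl_all hn (η := 1) hδ hδ1 hnd h1 one_pos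
  refine ⟨C, max T₀ 0, hC, fun T L hT hL hLT => ?_⟩
  have hL1 : 1 ≤ L := hC.trans hL
  have hT0 : 0 ≤ T := (le_max_right _ _).trans hT
  obtain ⟨E, hE, H2⟩ := H T L ((le_max_left _ _).trans hT) hL hLT
  refine ⟨E, hE.trans (ENNReal.ofReal_le_ofReal ?_), fun t ht hnt x hx => ?_⟩
  · have h3 : L ^ (-10 : ℝ) ≤ L ^ (-2 : ℝ) := Real.rpow_le_rpow_of_exponent_le hL1 (by norm_num)
    gcongr
  · have h4 := H2 t ht hnt 0 x (Icc 0 x) (by linarith) hx.1 hx.2 Ioo_subset_Icc_self le_rfl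
    simpa only [sub_zero] using h4

end Pool.Agent.Helper60.OR
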